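import Mathlib
import Pool.Agent.N173.BG.Stm

/-!
Project BG (helper173), part POP: the elements with a nearly maximal number of representations in `2A - 2A`.
-/

set_option autoImplicit false

namespace Pool.Agent.N323.BG

open Finset Pool.Agent.TH858 Pool.Agent.TH858.GP Pool.Agent.N173.BG

variable {N : ℕ} [NeZero N]

omit [NeZero N] in
lemma rr_eq_quad (A : Finset (ZMod N)) (x : ZMod N) : rr A x = quad A A x := by
  unfold rr quad
  refine card_bij' (fun p _ => ((p.2.2.1, p.1), (p.2.2.2, p.2.1))) (fun q _ => (q.1.2, q.2.2, q.1.1, q.2.1))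
    ?_ ?_ ?_ ?_
  · rintro ⟨a, b, c, d⟩ h
    simp only [mem_filter, mem_product] at h ⊢
    obtain ⟨⟨h1, h2, h3, h4⟩, h5⟩ := h
    exact ⟨⟨⟨h3, h1⟩, h4, h2⟩, by rw [h5]; ring⟩
  · rintro ⟨⟨a, b⟩, c, d⟩ h
    simp only [mem_filter, mem_product] at h ⊢
    obtain ⟨⟨⟨h1, h2⟩, h3, h4⟩, h5⟩ := h
    exact ⟨⟨h2, h4, h1, h3⟩, by linear_combination h5⟩
  · rintro ⟨a, b, c, d⟩ _
    rfl
  · rintro ⟨⟨a, b⟩, c, d⟩ _
    rfl

lemma norm_sq_sub_one (c : ZMod N) : ‖ψ c - 1‖ ^ 2 = 2 - 2 * (ψ c).re := by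
  have h1 : ‖ψ c‖ ^ 2 = 1 := by rw [ψ_norm]; norm_num
  rw [← Complex.normSq_eq_norm_sq, Complex.normSq_apply] at h1 ⊢
  simp only [Complex.sub_re, Complex.sub_im, Complex.one_re, Complex.one_im, sub_zero]
  nlinarith

/-- The weighted sum. -/
lemma T_eq (A : Finset (ZMod N)) (x : ZMod N) :
    ∑ g : ZMod N, wt A g * wt A g * ‖ψ (g * x) - 1‖ ^ 2 = 2 * N * ((rr A 0 : ℝ) - rr A x) := by
  have h1 := fourier2 A A x
  have h0 := fourier2 A A 0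
  rw [← rr_eq_quad] at h1 h0
  have h0' : ∑ g : ZMod N, wt A g * wt A g = N * (rr A 0 : ℝ) := by
    rw [← h0]
    refine sum_congr rfl fun g _ => ?_
    rw [mul_zero, ψ_zero, Complex.one_re, mul_one]
  calc ∑ g : ZMod N, wt A g * wt A g * ‖ψ (g * x) - 1‖ ^ 2
      = ∑ g : ZMod N, (2 * (wt A g * wt A g) - 2 * (wt A g * wt A g * (ψ (g * x)).re)) := by
        refine sum_congr rfl fun g _ => ?_
        rw [norm_sq_sub_one]
        ring
    _ = 2 * (N * (rr A 0 : ℝ)) - 2 * (N * (rr A x : ℝ)) := by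
        rw [sum_sub_distrib, ← mul_sum, ← mul_sum, h0', h1]
    _ = _ := by ring

lemma norm_bound (K : ℕ) (a b : Fin K → ZMod N) (g : ZMod N) :
    ‖ψ (g * (∑ i, a i - ∑ i, b i)) - 1‖ ^ 2 ≤
      2 * K * (∑ i, ‖ψ (g * a i) - 1‖ ^ 2 + ∑ i, ‖ψ (g * b i) - 1‖ ^ 2) := by
  have e : g * (∑ i, a i - ∑ i, b i) = ∑ i, g * a i + (-∑ i, g * b i) := by
    rw [mul_sub, mul_sum, mul_sum, sub_eq_add_neg]
  have h1 : ‖ψ (g * (∑ i, a i - ∑ i, b i)) - 1‖ ≤ ∑ i, ‖ψ (g * a i) - 1‖ + ∑ i, ‖ψ (g * b i) - 1‖ := by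
    rw [e]
    refine (norm_ψ_sub_one_add _ _).trans ?_
    rw [norm_ψ_sub_one_neg]
    exact add_le_add (norm_ψ_sub_one_sum _ _) (norm_ψ_sub_one_sum _ _)
  have h2 : (∑ i, ‖ψ (g * a i) - 1‖) ^ 2 ≤ K * ∑ i, ‖ψ (g * a i) - 1‖ ^ 2 := by
    have := sq_sum_le_card_mul_sum_sq (s := (univ : Finset (Fin K))) (f := fun i => ‖ψ (g * a i) - 1‖)
    simpa using this
  have h3 : (∑ i, ‖ψ (g * b i) - 1‖) ^ 2 ≤ K * ∑ i, ‖ψ (g * b i) - 1‖ ^ 2 := by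
    have := sq_sum_le_card_mul_sum_sq (s := (univ : Finset (Fin K))) (f := fun i => ‖ψ (g * b i) - 1‖)
    simpa using this
  calc ‖ψ (g * (∑ i, a i - ∑ i, b i)) - 1‖ ^ 2
      ≤ (∑ i, ‖ψ (g * a i) - 1‖ + ∑ i, ‖ψ (g * b i) - 1‖) ^ 2 := pow_le_pow_left₀ (norm_nonneg _) h1 2
    _ ≤ 2 * ((∑ i, ‖ψ (g * a i) - 1‖) ^ 2 + (∑ i, ‖ψ (g * b i) - 1‖) ^ 2) := by
        nlinarith [sq_nonneg (∑ i, ‖ψ (g * a i) - 1‖ - ∑ i, ‖ψ (g * b i) - 1‖)]
    _ ≤ 2 * (K * ∑ i, ‖ψ (g * a i) - 1‖ ^ 2 + K * ∑ i, ‖ψ (g * b i) - 1‖ ^ 2) := by linarith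
    _ = _ := by ring

omit [NeZero N] in
lemma rr_zero_pos (A : Finset (ZMod N)) (hA : A.Nonempty) : 0 < rr A 0 := by
  obtain ⟨a, ha⟩ := hA
  unfold rr
  rw [card_pos]
  refine ⟨(a, a, a, a), ?_⟩
  simp only [mem_filter, mem_product]
  exact ⟨⟨ha, ha, ha, ha⟩, by ring⟩

/-- POP. -/
theorem t_POP : S_POP := by
  intro N _ A K η hA hη hK x hx
  obtain ⟨a, b, ha, hb, hx⟩ := hx
  have hNpos : (0 : ℝ) < N := Nat.cast_pos.mpr (NeZero.pos N)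
  have h0 : (0 : ℝ) < rr A 0 := by exact_mod_cast rr_zero_pos A hA
  have hT : ∀ y : ZMod N, y ∈ (univ.filter fun x : ZMod N => (1 - η) * (rr A 0 : ℝ) ≤ rr A x) →
      ∑ g : ZMod N, wt A g * wt A g * ‖ψ (g * y) - 1‖ ^ 2 ≤ 2 * N * (η * rr A 0) := by
    intro y hy
    rw [mem_filter] at hy
    rw [T_eq]
    refine mul_le_mul_of_nonneg_left ?_ (by positivity)
    linarith [hy.2]
  have hmain : ∑ g : ZMod N, wt A g * wt A g * ‖ψ (g * x) - 1‖ ^ 2 ≤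
      2 * N * ((2 * (K : ℝ)) ^ 2 * η * rr A 0) := by
    calc ∑ g : ZMod N, wt A g * wt A g * ‖ψ (g * x) - 1‖ ^ 2
        ≤ ∑ g : ZMod N, wt A g * wt A g *
            (2 * K * (∑ i, ‖ψ (g * a i) - 1‖ ^ 2 + ∑ i, ‖ψ (g * b i) - 1‖ ^ 2)) := by
          refine sum_le_sum fun g _ => mul_le_mul_of_nonneg_left ?_
            (mul_nonneg (wt_nonneg _ _) (wt_nonneg _ _))
          rw [hx]
          exact norm_bound K a b g
      _ = 2 * K * (∑ i, ∑ g : ZMod N, wt A g * wt A g * ‖ψ (g * a i) - 1‖ ^ 2 +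
            ∑ i, ∑ g : ZMod N, wt A g * wt A g * ‖ψ (g * b i) - 1‖ ^ 2) := by
          rw [sum_comm (s := (univ : Finset (Fin K))), sum_comm (s := (univ : Finset (Fin K))),
            ← sum_add_distrib, mul_sum]
          refine sum_congr rfl fun g _ => ?_
          rw [← mul_sum, ← mul_sum]
          ring
      _ ≤ 2 * K * (∑ _i : Fin K, 2 * N * (η * rr A 0) + ∑ _i : Fin K, 2 * N * (η * rr A 0)) := by
          refine mul_le_mul_of_nonneg_left ?_ (by positivity)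
          exact add_le_add (sum_le_sum fun i _ => hT _ (ha i)) (sum_le_sum fun i _ => hT _ (hb i))
      _ = 2 * N * ((2 * (K : ℝ)) ^ 2 * η * rr A 0) := by
          rw [sum_const, card_univ, Fintype.card_fin, nsmul_eq_mul]
          ring
  rw [T_eq] at hmain
  have h2 : (rr A 0 : ℝ) - rr A x ≤ (2 * (K : ℝ)) ^ 2 * η * rr A 0 :=
    le_of_mul_le_mul_left hmain (by positivity)
  have h3 : (2 * (K : ℝ)) ^ 2 * η * rr A 0 < 1 * rr A 0 := mul_lt_mul_of_pos_right hK h0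
  have h4 : (0 : ℝ) < rr A x := by linarith
  have h5 : 0 < quad A A x := by
    rw [← rr_eq_quad]
    exact_mod_cast h4
  exact mem_of_quad A A x h5

end Pool.Agent.N323.BG
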